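import Mathlib
import Pool.Agent.V11309.ABase
import Pool.Agent.V11309.DimZero

/-! For a suitable basic sequence the set in Q1 has Hausdorff dimension `0`. -/

set_option autoImplicit false

namespace Pool.Agent.Results.MP_ab119d_nt.DimZero

open Filter Topology Finset Pool.Agent.V11309.Cantor Pool.Agent.V11309.ABase

/-- the number of positions in the runs -/
def R (n : ℕ) : ℕ := ((Icc 1 n).filter Run).card

lemma R_bound (n : ℕ) : R n ≤ (Nat.log 2 n + 1) * 2 ^ (Nat.log 2 n / 2) := by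
  have h : R n ≤ (range (Nat.log 2 n + 1) ×ˢ range (2 ^ (Nat.log 2 n / 2))).card := by
    unfold R
    apply card_le_card_of_injOn (fun j => (Nat.log 2 j, j - 2 ^ Nat.log 2 j))
    · intro j hj
      simp only [coe_filter, Set.mem_ofPred_eq, mem_Icc] at hj
      simp only [coe_product, coe_range, Set.mem_prod, Set.mem_Iio]
      have h1 : Nat.log 2 j ≤ Nat.log 2 n := Nat.log_mono_right hj.1.2
      refine ⟨by omega, lt_of_lt_of_le hj.2 ?_⟩
      exact Nat.pow_le_pow_right (by norm_num) (by omega)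
    · intro i hi j hj hij
      simp only [coe_filter, Set.mem_ofPred_eq, mem_Icc] at hi hj
      simp only [Prod.mk.injEq] at hij
      have h1 : 2 ^ Nat.log 2 i ≤ i := Nat.pow_log_le_self 2 (by omega)
      have h2 : 2 ^ Nat.log 2 j ≤ j := Nat.pow_log_le_self 2 (by omega)
      obtain ⟨e1, e2⟩ := hij
      rw [e1] at h1 e2
      omega
  rwa [card_product, card_range, card_range] at h

/-- cheap positions -/
def cheap (n : ℕ) : ℕ := ((Icc 1 n).filter fun j => Run j ∨ Run (j + 1)).card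

lemma cheap_bound (n : ℕ) : cheap n ≤ 2 * R n + 1 := by
  have h1 : cheap n ≤ R n + ((Icc 1 n).filter fun j => Run (j + 1)).card := by
    unfold cheap R
    rw [filter_or]
    exact card_union_le _ _
  have h2 : ((Icc 1 n).filter fun j => Run (j + 1)).card ≤ R (n + 1) := by
    unfold R
    apply card_le_card_of_injOn (fun j => j + 1)
    · intro j hj
      simp only [coe_filter, Set.mem_ofPred_eq, mem_Icc] at hj ⊢
      exact ⟨by omega, hj.2⟩
    · intro i _ j _ h
      simpa using h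
  have h3 : R (n + 1) ≤ R n + 1 := by
    unfold R
    rw [← insert_Icc_right_eq_Icc_add_one (by omega : 1 ≤ n + 1), filter_insert]
    split_ifs
    · exact card_insert_le _ _
    · omega
  omega

/-- the weight of the odd class -/
noncomputable def W (n : ℕ) : ℝ := weight Q 2 2 1 n

lemma term_nonneg (k p : ℕ) : 0 ≤ (∏ j ∈ range k, (Q (p + j) : ℝ))⁻¹ := by positivity

lemma W_lower (n : ℕ) : ((n / 4 : ℕ) : ℝ) / ((Nat.log 2 n + 3 : ℕ) : ℝ) ^ 2 ≤ W n := by
  unfold W weight
  set L := Nat.log 2 n with hL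
  have hval : ∀ t ∈ range (n / 4), ((((L + 3 : ℕ) : ℝ) ^ 2)⁻¹ : ℝ) ≤
      (∏ j ∈ range 2, (Q (4 * t + 1 + j) : ℝ))⁻¹ := by
    intro t ht
    rw [mem_range] at ht
    have hb : ∀ p, p ≤ n → p % 4 ≠ 3 → p % 4 ≠ 0 → (Q p : ℝ) ≤ ((L + 3 : ℕ) : ℝ) := by
      intro p hp h3 h0
      have hh : ¬ Huge p := fun h => by rcases h.1 with h | h <;> contradiction
      rw [Q_small hh]
      have : Nat.log 2 p ≤ L := Nat.log_mono_right hp
      exact_mod_cast (by omega : Nat.log 2 p + 2 ≤ L + 3)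
    have h1 := hb (4 * t + 1) (by omega) (by omega) (by omega)
    have h2 := hb (4 * t + 1 + 1) (by omega) (by omega) (by omega)
    have q1 : (0 : ℝ) < Q (4 * t + 1) := by
      have := two_le_Q (4 * t + 1); exact_mod_cast (by omega : 0 < Q (4 * t + 1))
    have q2 : (0 : ℝ) < Q (4 * t + 1 + 1) := by
      have := two_le_Q (4 * t + 1 + 1); exact_mod_cast (by omega : 0 < Q (4 * t + 1 + 1))
    rw [prod_range_succ, prod_range_succ, prod_range_zero, one_mul, add_zero]
    apply inv_anti₀ (by positivity)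
    rw [pow_two]
    exact mul_le_mul h1 h2 q2.le (by positivity)
  calc ((n / 4 : ℕ) : ℝ) / ((L + 3 : ℕ) : ℝ) ^ 2
      = ∑ t ∈ range (n / 4), ((((L + 3 : ℕ) : ℝ) ^ 2)⁻¹ : ℝ) := by
        rw [sum_const, card_range, nsmul_eq_mul, div_eq_mul_inv]
    _ ≤ ∑ t ∈ range (n / 4), (∏ j ∈ range 2, (Q (4 * t + 1 + j) : ℝ))⁻¹ := sum_le_sum hval
    _ = ∑ p ∈ (range (n / 4)).image (fun t => 4 * t + 1), (∏ j ∈ range 2, (Q (p + j) : ℝ))⁻¹ := by
        rw [sum_image]
        intro a _ b _ h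
        simpa using h
    _ ≤ _ := by
        apply sum_le_sum_of_subset_of_nonneg
        · intro p hp
          rw [mem_image] at hp
          obtain ⟨t, ht, rfl⟩ := hp
          rw [mem_range] at ht
          rw [mem_filter, mem_Icc]
          refine ⟨⟨by omega, by omega⟩, by omega⟩
        · intro i _ _; exact term_nonneg _ _

lemma W_tendsto : Tendsto W atTop atTop := divergentI 2 2 1 (by norm_num) (by norm_num) (by norm_num)

lemma W_nonneg (n : ℕ) : 0 ≤ W n := by
  unfold W weight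
  exact sum_nonneg fun i _ => term_nonneg _ _

lemma cheap_ratio : Tendsto (fun n => (cheap n : ℝ) / W n) atTop (𝓝 0) := by
  rw [Metric.tendsto_atTop]
  intro ε hε
  obtain ⟨A, hA⟩ := exists_nat_gt (1 / ε)
  -- for large L: `A * (2 (L+1) 2^{L/2} + 1) * 8 * (L+3)^2 ≤ 2^L`
  have h := tendsto_pow_const_div_const_pow_of_one_lt 3 (r := (2 : ℝ)) (by norm_num)
  have hev : ∀ᶠ u : ℕ in atTop, (A : ℝ) * 24 * 512 * ((u + 1 : ℕ) : ℝ) ^ 3 < 2 ^ (u + 1) := by
    have hpos : (0 : ℝ) < 1 / (A * 24 * 512 + 1) := by positivity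
    have h2 := (h.eventually (gt_mem_nhds hpos))
    have h3 := (tendsto_add_atTop_nat 1).eventually h2
    filter_upwards [h3] with u hu
    rw [div_lt_div_iff₀ (by positivity) (by positivity)] at hu
    have : (0 : ℝ) < ((u + 1 : ℕ) : ℝ) ^ 3 := by positivity
    nlinarith
  obtain ⟨U, hU⟩ := eventually_atTop.1 hev
  refine ⟨2 ^ (2 * U + 4), fun n hn => ?_⟩
  rw [Real.dist_eq, sub_zero, abs_of_nonneg (div_nonneg (by positivity) (W_nonneg n))]
  set L := Nat.log 2 n with hL
  have hn0 : n ≠ 0 := by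
    have : 1 ≤ 2 ^ (2 * U + 4) := Nat.one_le_two_pow
    omega
  have hLU : 2 * U + 4 ≤ L := Nat.le_log_of_pow_le (by norm_num) hn
  have h2L : 2 ^ L ≤ n := Nat.pow_log_le_self 2 hn0
  obtain ⟨u, hu⟩ : ∃ u, u = L / 2 - 1 := ⟨_, rfl⟩
  have hLu : L / 2 = u + 1 := by omega
  have hUu := hU u (by omega)
  have hLle : L ≤ 2 * u + 3 := by omega
  have hLge : 2 * u + 2 ≤ L := by omega
  have hn4 : 2 ^ (2 * u) ≤ n / 4 := by
    have : 2 ^ (2 * u + 2) ≤ n := le_trans (Nat.pow_le_pow_right (by norm_num) hLge) h2L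
    rw [pow_add] at this
    omega
  have hch : cheap n ≤ 2 * ((L + 1) * 2 ^ (u + 1)) + 1 := by
    have h1 := cheap_bound n
    have h2 := R_bound n
    rw [← hL, hLu] at h2
    omega
  have hch2 : (cheap n : ℝ) ≤ 12 * ((u + 1 : ℕ) : ℝ) * 2 ^ (u + 1) := by
    have : cheap n ≤ 12 * (u + 1) * 2 ^ (u + 1) := by
      have h1 : 1 ≤ 2 ^ (u + 1) := Nat.one_le_two_pow
      have h2 : (L + 1) * 2 ^ (u + 1) ≤ (2 * u + 4) * 2 ^ (u + 1) :=
        Nat.mul_le_mul_right _ (by omega)
      have h3 : 2 * ((2 * u + 4) * 2 ^ (u + 1)) + 2 ^ (u + 1) ≤ 12 * (u + 1) * 2 ^ (u + 1) := by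
        have : 2 * ((2 * u + 4) * 2 ^ (u + 1)) + 2 ^ (u + 1) = (4 * u + 9) * 2 ^ (u + 1) := by ring
        rw [this]
        exact Nat.mul_le_mul_right _ (by omega)
      omega
    exact_mod_cast this
  have hW := W_lower n
  rw [← hL] at hW
  have hL3 : ((L + 3 : ℕ) : ℝ) ^ 2 ≤ 64 * ((u + 1 : ℕ) : ℝ) ^ 2 := by
    have h1 : ((L + 3 : ℕ) : ℝ) ≤ 8 * ((u + 1 : ℕ) : ℝ) := by
      exact_mod_cast (by omega : L + 3 ≤ 8 * (u + 1))
    have h0 : (0 : ℝ) ≤ ((L + 3 : ℕ) : ℝ) := by positivity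
    nlinarith
  have hW2 : (2 : ℝ) ^ (2 * u) / (64 * ((u + 1 : ℕ) : ℝ) ^ 2) ≤ W n := by
    refine le_trans ?_ hW
    have h4 : (2 : ℝ) ^ (2 * u) ≤ ((n / 4 : ℕ) : ℝ) := by exact_mod_cast hn4
    exact div_le_div₀ (by positivity) h4 (by positivity) hL3
  have hWpos : 0 < W n := lt_of_lt_of_le (by positivity) hW2
  rw [div_lt_iff₀ hWpos]
  have hAε : 1 < ε * A := by
    rw [div_lt_iff₀ hε] at hA
    linarith
  have hA0 : (0 : ℝ) < A := lt_trans (by positivity) hA
  refine lt_of_le_of_lt hch2 ?_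
  refine lt_of_lt_of_le ?_ (mul_le_mul_of_nonneg_left hW2 hε.le)
  rw [mul_div_assoc', lt_div_iff₀ (by positivity)]
  have e1 : (2 : ℝ) ^ (2 * u) * 4 = 2 ^ (u + 1) * 2 ^ (u + 1) := by
    rw [← pow_add]
    have : u + 1 + (u + 1) = 2 * u + 2 := by ring
    rw [this, pow_add]; norm_num
  set X := (2 : ℝ) ^ (u + 1) with hX
  set y := ((u + 1 : ℕ) : ℝ) with hy
  have hXpos : 0 < X := by positivity
  have hypos : 0 < y := by positivity
  -- `12 y X * (64 y^2) < ε * 2^{2u}`
  have e2 : ε * 2 ^ (2 * u) = ε * (X * X) / 4 := by rw [← e1]; ring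
  rw [e2, lt_div_iff₀ (by norm_num)]
  have h5 : A * 24 * 512 * y ^ 3 * ε < X * ε := by
    exact mul_lt_mul_of_pos_right hUu hε
  have h6 : 24 * 512 * y ^ 3 ≤ A * 24 * 512 * y ^ 3 * ε := by
    have : (0 : ℝ) < 24 * 512 * y ^ 3 := by positivity
    nlinarith
  have h7 : 24 * 512 * y ^ 3 < X * ε := lt_of_le_of_lt h6 h5
  have h8 : 24 * 512 * y ^ 3 * X < X * ε * X := mul_lt_mul_of_pos_right h7 hXpos
  have h9 : (0 : ℝ) < y ^ 3 * X := by positivity
  nlinarith

lemma const_ratio (K : ℝ) : Tendsto (fun n => K / W n) atTop (𝓝 0) :=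
  W_tendsto.const_div_atTop K

/-- not cheap even positions meet a huge term -/
lemma even_huge {p : ℕ} (hp : p % 2 = 0) (hc : ¬ (Run p ∨ Run (p + 1))) :
    Huge p ∨ Huge (p + 1) := by
  push Not at hc
  rcases (by omega : p % 4 = 0 ∨ p % 4 = 2) with h | h
  · exact Or.inl ⟨Or.inr h, hc.1⟩
  · exact Or.inr ⟨Or.inl (by omega), hc.2⟩

lemma geom_bound (S : Finset ℕ) : ∑ p ∈ S, ((1 : ℝ) / 2) ^ p ≤ 2 := by
  have h := summable_geometric_two
  calc ∑ p ∈ S, ((1 : ℝ) / 2) ^ p ≤ ∑' p : ℕ, ((1 : ℝ) / 2) ^ p :=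
        h.sum_le_tsum S (fun i _ => by positivity)
    _ = 2 := tsum_geometric_two

lemma even_weight (n : ℕ) : weight Q 2 2 0 n ≤ cheap n + 2 := by
  unfold weight
  rw [← sum_filter_add_sum_filter_not _ (fun p => Run p ∨ Run (p + 1))]
  have q2 : ∀ p, (2 : ℝ) ≤ Q p := fun p => by exact_mod_cast two_le_Q p
  have h1 : ∑ p ∈ ((Icc 1 n).filter (fun p => p % 2 = 0)).filter (fun p => Run p ∨ Run (p + 1)),
      (∏ j ∈ range 2, (Q (p + j) : ℝ))⁻¹ ≤ cheap n := by
    calc _ ≤ ∑ p ∈ ((Icc 1 n).filter (fun p => p % 2 = 0)).filter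
              (fun p => Run p ∨ Run (p + 1)), (1 : ℝ) := by
          apply sum_le_sum
          intro p _
          rw [prod_range_succ, prod_range_succ, prod_range_zero, one_mul, add_zero]
          apply inv_le_one_of_one_le₀
          nlinarith [q2 p, q2 (p + 1)]
      _ = ((((Icc 1 n).filter (fun p => p % 2 = 0)).filter
              (fun p => Run p ∨ Run (p + 1))).card : ℝ) := by simp
      _ ≤ cheap n := by
          unfold cheap
          norm_cast
          exact card_le_card (filter_subset_filter _ (filter_subset _ _))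
  have h2 : ∑ p ∈ ((Icc 1 n).filter (fun p => p % 2 = 0)).filter
      (fun p => ¬ (Run p ∨ Run (p + 1))), (∏ j ∈ range 2, (Q (p + j) : ℝ))⁻¹ ≤ 2 := by
    refine le_trans (sum_le_sum ?_) (geom_bound (((Icc 1 n).filter (fun p => p % 2 = 0)).filter
      (fun p => ¬ (Run p ∨ Run (p + 1)))))
    intro p hp
    rw [mem_filter, mem_filter] at hp
    rw [prod_range_succ, prod_range_succ, prod_range_zero, one_mul, add_zero]
    rw [one_div, inv_pow]
    apply inv_anti₀ (by positivity)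
    rcases even_huge hp.1.2 hp.2 with h | h
    · have h3 : ((2 ^ p : ℕ) : ℝ) ≤ Q p := by exact_mod_cast huge_lower h
      push_cast at h3
      nlinarith [q2 (p + 1), q2 p]
    · have h3 : ((2 ^ (p + 1) : ℕ) : ℝ) ≤ Q (p + 1) := by exact_mod_cast huge_lower h
      push_cast at h3
      rw [pow_succ] at h3
      have : (0 : ℝ) < 2 ^ p := by positivity
      nlinarith [q2 (p + 1), q2 p]
  linarith

lemma filter_split (n : ℕ) (f : ℕ → ℝ) :
    ∑ p ∈ (Icc 1 n).filter (fun p => p % 1 = 0), f p =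
      ∑ p ∈ (Icc 1 n).filter (fun p => p % 2 = 0), f p +
      ∑ p ∈ (Icc 1 n).filter (fun p => p % 2 = 1), f p := by
  have e1 : (Icc 1 n).filter (fun p => p % 1 = 0) = Icc 1 n := by
    apply filter_true_of_mem
    intro x _
    omega
  rw [e1, ← sum_filter_add_sum_filter_not (Icc 1 n) (fun p => p % 2 = 0)]
  congr 2
  apply filter_congr
  intro x _
  omega

lemma weight_split (n : ℕ) : weight Q 2 1 0 n = weight Q 2 2 0 n + W n := by
  unfold W weight
  exact filter_split n _

lemma weight_ratio : Tendsto (fun n => weight Q 2 1 0 n / W n) atTop (𝓝 1) := by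
  have h0 : Tendsto (fun n => weight Q 2 2 0 n / W n) atTop (𝓝 0) := by
    have hup : Tendsto (fun n => (cheap n : ℝ) / W n + 2 / W n) atTop (𝓝 0) := by
      simpa using cheap_ratio.add (const_ratio 2)
    refine squeeze_zero (fun n => ?_) (fun n => ?_) hup
    · apply div_nonneg _ (W_nonneg n)
      unfold weight
      exact sum_nonneg fun i _ => term_nonneg _ _
    · rw [← add_div]
      exact div_le_div_of_nonneg_right (even_weight n) (W_nonneg n)
  have h1 : Tendsto (fun n => weight Q 2 2 0 n / W n + 1) atTop (𝓝 (0 + 1)) := h0.add_const 1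
  rw [zero_add] at h1
  refine h1.congr' ?_
  filter_upwards [W_tendsto.eventually_gt_atTop 0] with n hn
  rw [weight_split]
  field_simp

open Classical in
lemma count_split (x : ℝ) (B : Fin 2 → ℕ) (n : ℕ) :
    (count Q x B 1 0 n : ℝ) = count Q x B 2 0 n + count Q x B 2 1 n := by
  have h := filter_split n (fun p => if Occurs Q x B p then (1 : ℝ) else 0)
  unfold count
  have e : ∀ m r, ((((Icc 1 n).filter fun p => p % m = r ∧ Occurs Q x B p).card : ℕ) : ℝ) =
      ∑ p ∈ (Icc 1 n).filter (fun p => p % m = r), if Occurs Q x B p then (1 : ℝ) else 0 := by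
    intro m r
    rw [← filter_filter, card_eq_sum_ones, sum_filter (Occurs Q x B)]
    push_cast
    rfl
  rw [e, e, e]
  exact h

/-- only finitely many digits at the huge positions equal `c` -/
def Fin' (x : ℝ) : Prop := ∀ c : ℕ, ∃ N, ∀ j, N ≤ j → Huge j → digit Q x j ≠ (c : ℤ)

lemma count_even (x : ℝ) (hx : Fin' x) (B : Fin 2 → ℕ) :
    ∃ K : ℕ, ∀ n, count Q x B 2 0 n ≤ cheap n + K := by
  obtain ⟨N0, h0⟩ := hx (B 0)
  obtain ⟨N1, h1⟩ := hx (B 1)
  refine ⟨N0 + N1 + 1, fun n => ?_⟩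
  classical
  unfold count cheap
  have hsub : ((Icc 1 n).filter fun p => p % 2 = 0 ∧ Occurs Q x B p) ⊆
      ((Icc 1 n).filter fun j => Run j ∨ Run (j + 1)) ∪ range (N0 + N1 + 1) := by
    intro p hp
    rw [mem_filter] at hp
    rw [mem_union, mem_filter, mem_range]
    by_contra hcon
    push Not at hcon
    have hc : ¬ (Run p ∨ Run (p + 1)) := by
      intro h
      rcases h with h | h
      · exact (hcon.1 hp.1).1 h
      · exact (hcon.1 hp.1).2 h
    have hocc := hp.2.2
    rcases even_huge hp.2.1 hc with h | h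
    · have := hocc 0
      simp only [Fin.val_zero, add_zero] at this
      exact h0 p (by omega) h this
    · have := hocc 1
      simp only [Fin.val_one] at this
      exact h1 (p + 1) (by omega) h this
  calc _ ≤ _ := card_le_card hsub
    _ ≤ _ := card_union_le _ _
    _ = _ := by rw [card_range]

lemma normal_imp (x : ℝ) (hn : x ∈ NormalAP Q 2 1 0) (hx : Fin' x) : x ∈ NormalAP Q 2 2 1 := by
  intro B
  have h1 := hn B
  obtain ⟨K, hK⟩ := count_even x hx B
  have h2 : Tendsto (fun n => (count Q x B 1 0 n : ℝ) / W n) atTop (𝓝 1) := by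
    have := h1.mul weight_ratio
    rw [one_mul] at this
    refine this.congr' ?_
    filter_upwards [W_tendsto.eventually_gt_atTop 0] with n hn
    have hw : 0 < weight Q 2 1 0 n := by
      rw [weight_split]
      have : 0 ≤ weight Q 2 2 0 n := by
        unfold weight
        exact sum_nonneg fun i _ => term_nonneg _ _
      linarith
    field_simp
  have h3 : Tendsto (fun n => (count Q x B 2 0 n : ℝ) / W n) atTop (𝓝 0) := by
    have hup : Tendsto (fun n => (cheap n : ℝ) / W n + K / W n) atTop (𝓝 0) := by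
      simpa using cheap_ratio.add (const_ratio K)
    refine squeeze_zero (fun n => div_nonneg (by positivity) (W_nonneg n)) (fun n => ?_) hup
    rw [← add_div]
    refine div_le_div_of_nonneg_right ?_ (W_nonneg n)
    exact_mod_cast hK n
  have h4 := h2.sub h3
  rw [sub_zero] at h4
  refine h4.congr fun n => ?_
  rw [count_split, ← sub_div]
  congr 1
  ring

/-- the exceptional set -/
def S (c : ℕ) (m : ℤ) : Set ℝ :=
  {x | ⌊x⌋ = m ∧ ∀ N, ∃ j, N ≤ j ∧ Huge j ∧ digit Q x j = (c : ℤ)}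

lemma prod_cast (j : ℕ) : (∏ i ∈ Icc 1 j, (Q i : ℝ)) = (P j : ℝ) := by
  rw [← Pool.Agent.V11309.ABase.prod_eq]; push_cast; rfl

lemma P_succ' {j : ℕ} (hj : 1 ≤ j) : P j = P (j - 1) * Q j := by
  obtain ⟨t, rfl⟩ : ∃ t, j = t + 1 := ⟨j - 1, by omega⟩
  rfl

lemma S_dim (c : ℕ) (m : ℤ) : dimH (S c m) = 0 := by
  apply Pool.Agent.V11309.DimZero.dimH_limsup_zero
    (fun j => if Huge j then P (j - 1) else 0) (fun j => 1 / (P j : ℝ))
    (fun j i => ((Q j : ℝ) * ((m : ℝ) * P (j - 1) + i) + c) / P j)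
  · intro x hx N
    obtain ⟨hm, hx⟩ := hx
    obtain ⟨j, hj, hh, hd⟩ := hx (N + 1)
    refine ⟨j, by omega, ?_⟩
    rw [if_pos hh]
    unfold digit at hd
    rw [prod_cast] at hd
    have hPj : (0 : ℝ) < P j := by exact_mod_cast P_pos j
    have hPj1 : (0 : ℝ) < P (j - 1) := by exact_mod_cast P_pos (j - 1)
    have hQ : (0 : ℤ) < Q j := by have := two_le_Q j; omega
    have hPP : (P j : ℝ) = P (j - 1) * Q j := by exact_mod_cast P_succ' (by omega : 1 ≤ j)
    have hPPz : (P j : ℤ) = P (j - 1) * Q j := by exact_mod_cast P_succ' (by omega : 1 ≤ j)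
    set F := ⌊(P j : ℝ) * x⌋ with hF
    have hF1 : (F : ℝ) ≤ P j * x := Int.floor_le _
    have hF2 : (P j : ℝ) * x < F + 1 := Int.lt_floor_add_one _
    have hdiv := Int.emod_add_mul_ediv F (Q j)
    rw [hd] at hdiv
    have hx1 : (m : ℝ) ≤ x := by rw [← hm]; exact Int.floor_le x
    have hx2 : x < (m : ℝ) + 1 := by rw [← hm]; exact Int.lt_floor_add_one x
    have hFlow : m * P j ≤ F := by
      rw [hF, Int.le_floor]
      push_cast
      nlinarith
    have hFup : F < (m + 1) * P j := by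
      have : (F : ℝ) < (m + 1) * P j := by nlinarith
      exact_mod_cast this
    have ha1 : m * P (j - 1) ≤ F / Q j := by
      apply Int.le_ediv_of_mul_le hQ
      calc m * P (j - 1) * Q j = m * P j := by rw [hPPz]; ring
        _ ≤ F := hFlow
    have ha2 : F / Q j < (m + 1) * P (j - 1) := by
      apply Int.ediv_lt_of_lt_mul hQ
      calc F < (m + 1) * P j := hFup
        _ = _ := by rw [hPPz]; ring
    refine ⟨(F / Q j - m * P (j - 1)).toNat, ?_, ?_⟩
    · have : (F / Q j - m * P (j - 1)) < P (j - 1) := by linarith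
      omega
    · have hi : (((F / Q j - m * P (j - 1)).toNat : ℕ) : ℝ) = ((F / Q j : ℤ) : ℝ) - m * P (j - 1) := by
        have : (((F / Q j - m * P (j - 1)).toNat : ℕ) : ℤ) = F / Q j - m * P (j - 1) :=
          Int.toNat_of_nonneg (by linarith)
        have h2 : ((((F / Q j - m * P (j - 1)).toNat : ℕ) : ℤ) : ℝ) =
          ((F / Q j - m * P (j - 1) : ℤ) : ℝ) := by rw [this]
        push_cast at h2 ⊢
        exact h2
      rw [hi]
      have e : (Q j : ℝ) * ((m : ℝ) * P (j - 1) + (((F / Q j : ℤ) : ℝ) - m * P (j - 1))) + c = F := by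
        have : (c : ℤ) + Q j * (F / Q j) = F := hdiv
        have h2 : (((c : ℤ) + Q j * (F / Q j) : ℤ) : ℝ) = F := by rw [this]
        push_cast at h2
        linarith
      rw [e, Set.mem_Icc]
      constructor
      · rw [div_le_iff₀ hPj]; linarith
      · rw [← add_div, le_div_iff₀ hPj]; linarith
  · intro j; positivity
  · intro s hs
    obtain ⟨N, hN⟩ := exists_nat_gt (1 / s)
    refine ⟨N + 1, fun j hj => ?_⟩
    by_cases hh : Huge j
    · rw [if_pos hh]
      have hPj : (0 : ℝ) < P j := by exact_mod_cast P_pos j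
      have hPj1 : (1 : ℝ) ≤ P (j - 1) := by exact_mod_cast P_pos (j - 1)
      have hPP : (P j : ℝ) = P (j - 1) * Q j := by exact_mod_cast P_succ' (by omega : 1 ≤ j)
      have hQj : (Q j : ℝ) = (2 ^ j * P (j - 1)) ^ j := by exact_mod_cast Q_huge hh
      set T : ℝ := 2 ^ j * P (j - 1) with hT
      have hT1 : 1 ≤ T := by
        have : (1 : ℝ) ≤ 2 ^ j := one_le_pow₀ (by norm_num)
        nlinarith
      have h1 : T ^ j ≤ P j := by
        rw [hPP, hQj]
        have : 0 ≤ T ^ j := by positivity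
        nlinarith
      have h2 : T ≤ (P j : ℝ) ^ s := by
        have hjs : 1 ≤ (j : ℝ) * s := by
          have : (N : ℝ) ≤ j := by exact_mod_cast (by omega : N ≤ j)
          rw [div_lt_iff₀ hs] at hN
          nlinarith
        calc T = T ^ (1 : ℝ) := (Real.rpow_one T).symm
          _ ≤ T ^ ((j : ℝ) * s) := Real.rpow_le_rpow_of_exponent_le hT1 hjs
          _ = (T ^ j) ^ s := by rw [Real.rpow_mul (by positivity), Real.rpow_natCast]
          _ ≤ (P j : ℝ) ^ s := Real.rpow_le_rpow (by positivity) h1 hs.le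
      rw [Real.div_rpow (by norm_num) hPj.le, Real.one_rpow, mul_one_div]
      have hPs : 0 < (P j : ℝ) ^ s := by positivity
      rw [div_le_iff₀ hPs]
      have h3 : (P (j - 1) : ℝ) = (1 / 2) ^ j * T := by
        rw [hT, ← mul_assoc, ← mul_pow]; norm_num
      calc (P (j - 1) : ℝ) = (1 / 2) ^ j * T := h3
        _ ≤ _ := mul_le_mul_of_nonneg_left h2 (by positivity)
    · rw [if_neg hh]
      simp

/-- **The set in Q1 can have Hausdorff dimension `0`.** -/
theorem result :
    ∃ Q : ℕ → ℕ, (∀ n, 2 ≤ Q n) ∧ Tendsto Q atTop atTop ∧ FullyDivergentI Q ∧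
      dimH (Normal Q \ ⋃ k ≥ 2, ⋃ r < k, NormalAP Q k k r) = 0 := by
  refine ⟨Q, two_le_Q, Q_tendsto, divergentI, ?_⟩
  have hsub : (Normal Q \ ⋃ k ≥ 2, ⋃ r < k, NormalAP Q k k r) ⊆ ⋃ (p : ℕ × ℤ), S p.1 p.2 := by
    intro x hx
    by_contra hcon
    apply hx.2
    have hfin : Fin' x := by
      intro c
      by_contra h
      push Not at h
      exact hcon (Set.mem_iUnion.2 ⟨(c, ⌊x⌋), rfl, fun N => h N⟩)
    have h2 := normal_imp x (hx.1 2 (by norm_num)) hfin
    simp only [Set.mem_iUnion]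
    exact ⟨2, le_rfl, 1, by norm_num, h2⟩
  refine le_antisymm ?_ bot_le
  refine (dimH_mono hsub).trans ?_
  rw [dimH_iUnion]
  refine iSup_le fun p => ?_
  rw [S_dim]

end Pool.Agent.Results.MP_ab119d_nt.DimZero
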